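import Mathlib
import Pool.Agent.RZN.Ineq

/-!
# MP_40163f_nt : a lower bound for `K_m` in terms of Ruzsa's number `R_m`

`σ_A(n)` is `Pool.Agent.RZN.sig A n`, the number of ordered pairs `(a, a')` in `A × A` with `a + a' = n`.
For every `m`, `K_m^2 + 5 K_m ≥ (2 + 2 / (max(R_m, 6) - 4)) m`.
-/

set_option autoImplicit false

namespace Pool.Agent.Results.MP_40163f_nt.LowerBoundKm

open Finset Pool.Agent.RZN

/-- `1 ≤ σ_A(n) ≤ R` for all `n` in `Z_m` -/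
def Between (m : ℕ) [NeZero m] (R : ℕ) (A : Finset (ZMod m)) : Prop :=
  ∀ n : ZMod m, 1 ≤ sig A n ∧ sig A n ≤ R

/-- Ruzsa's number `R_m`: the least positive `r` such that some `A` in `Z_m` has `1 ≤ σ_A(n) ≤ r` for all `n` -/
noncomputable def ruzsa (m : ℕ) [NeZero m] : ℕ :=
  sInf {r : ℕ | 0 < r ∧ ∃ A : Finset (ZMod m), Between m r A}

/-- `K_m`: the least size of a set `A` in `Z_m` with `1 ≤ σ_A(n) ≤ R_m` for all `n` -/
noncomputable def kMin (m : ℕ) [NeZero m] : ℕ :=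
  sInf {k : ℕ | ∃ A : Finset (ZMod m), Between m (ruzsa m) A ∧ A.card = k}

/-- `ℓ_m`: the least value of `|A|^2 / m` over the sets `A` in `Z_m` with `σ_A(n) ≥ 1` for all `n` -/
noncomputable def ell (m : ℕ) [NeZero m] : ℝ :=
  sInf {x : ℝ | ∃ A : Finset (ZMod m), (∀ n : ZMod m, 1 ≤ sig A n) ∧ (A.card : ℝ) ^ 2 / m = x}

/-- `c_m = 2 + 2 / (max(R_m, 6) - 4)` -/
noncomputable def cst (m : ℕ) [NeZero m] : ℝ := 2 + 2 / (max (ruzsa m : ℝ) 6 - 4)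

theorem sig_univ (m : ℕ) [NeZero m] (n : ZMod m) : sig (univ : Finset (ZMod m)) n = m := by
  unfold sig
  have : ((univ : Finset (ZMod m)) ×ˢ univ).filter (fun p => p.1 + p.2 = n) =
      univ.image (fun a => (a, n - a)) := by
    ext q
    simp only [mem_filter, mem_product, mem_univ, true_and, mem_image]
    constructor
    · intro h
      exact ⟨q.1, Prod.ext rfl (by rw [← h]; ring)⟩
    · rintro ⟨a, rfl⟩
      ring
  rw [this, card_image_of_injective _ (fun a b h => (Prod.mk.inj h).1), card_univ, ZMod.card]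

theorem ruzsa_spec (m : ℕ) [NeZero m] :
    0 < ruzsa m ∧ ∃ A : Finset (ZMod m), Between m (ruzsa m) A := by
  have hm : 0 < m := Nat.pos_of_ne_zero (NeZero.ne m)
  refine Nat.sInf_mem (s := {r : ℕ | 0 < r ∧ ∃ A : Finset (ZMod m), Between m r A})
    ⟨m, hm, univ, fun n => ?_⟩
  rw [sig_univ]
  exact ⟨hm, le_rfl⟩

theorem kMin_spec (m : ℕ) [NeZero m] :
    ∃ A : Finset (ZMod m), Between m (ruzsa m) A ∧ A.card = kMin m := by
  obtain ⟨-, A, hA⟩ := ruzsa_spec m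
  exact Nat.sInf_mem (s := {k : ℕ | ∃ A : Finset (ZMod m), Between m (ruzsa m) A ∧ A.card = k})
    ⟨A.card, A, hA, rfl⟩

theorem all_m (m : ℕ) [NeZero m] : cst m * m ≤ (kMin m : ℝ) ^ 2 + 5 * kMin m := by
  obtain ⟨A, hA, hc⟩ := kMin_spec m
  have hb : ∀ n, 1 ≤ sig A n ∧ sig A n ≤ max (ruzsa m) 6 :=
    fun n => ⟨(hA n).1, (hA n).2.trans (le_max_left _ _)⟩
  have h1 := main_ineq A (max (ruzsa m) 6) (by omega) hb
  rw [hc] at h1
  have h6 : (6 : ℝ) ≤ max (ruzsa m : ℝ) 6 := le_max_right _ _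
  unfold cst
  have h2 : (2 * (max (ruzsa m : ℝ) 6) - 6) * m + 6 ≤
      (max (ruzsa m : ℝ) 6 - 4) * (kMin m : ℝ) ^ 2 + (max (ruzsa m : ℝ) 6 + 4) * kMin m := by
    have := h1
    have h3 : (((2 * ((max (ruzsa m) 6 : ℕ) : ℤ) - 6) * m + 6 : ℤ) : ℝ) ≤
      ((((((max (ruzsa m) 6 : ℕ) : ℤ) - 4) * (kMin m : ℤ) ^ 2 +
        (((max (ruzsa m) 6 : ℕ) : ℤ) + 4) * kMin m) : ℤ) : ℝ) := by exact_mod_cast this
    push_cast at h3
    exact h3
  generalize max (ruzsa m : ℝ) 6 = R at h2 h6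
  have hR : (0 : ℝ) < R - 4 := by linarith
  have hk : (0 : ℝ) ≤ kMin m := Nat.cast_nonneg _
  have h4 : (2 + 2 / (R - 4)) * (m : ℝ) = ((2 * R - 6) * m) / (R - 4) := by
    field_simp
    ring
  rw [h4, div_le_iff₀ hR]
  nlinarith

theorem cst_le (m : ℕ) [NeZero m] : cst m ≤ 3 := by
  unfold cst
  have h6 : (6 : ℝ) ≤ max (ruzsa m : ℝ) 6 := le_max_right _ _
  generalize max (ruzsa m : ℝ) 6 = R at h6
  have : 2 / (R - 4) ≤ 1 := by
    rw [div_le_one (by linarith)]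
    linarith
  linarith

theorem asymp (ε : ℝ) (hε : 0 < ε) (m : ℕ) [NeZero m] (hm : 75 / ε ^ 2 ≤ m) :
    cst m - ε ≤ (kMin m : ℝ) ^ 2 / m := by
  have hm0 : (0 : ℝ) < m := by
    have : 0 < m := Nat.pos_of_ne_zero (NeZero.ne m)
    exact_mod_cast this
  rw [le_div_iff₀ hm0]
  have h1 := all_m m
  have h2 := cst_le m
  have hk : (0 : ℝ) ≤ kMin m := Nat.cast_nonneg _
  rcases le_or_gt (3 * (m : ℝ)) ((kMin m : ℝ) ^ 2) with h3 | h3
  · nlinarith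
  · have h4 : 75 ≤ ε ^ 2 * m := by
      rw [div_le_iff₀ (by positivity)] at hm
      linarith
    -- `5 k ≤ ε m`
    have h5 : 5 * (kMin m : ℝ) ≤ ε * m := by
      refine abs_le_of_sq_le_sq' ?_ (by positivity) |>.2
      have : (ε * (m : ℝ)) ^ 2 = (ε ^ 2 * m) * m := by ring
      rw [this]
      nlinarith
    nlinarith

/-- (1) If `A` in `Z_m` has `1 ≤ σ_A(n) ≤ R` for all `n`, then
`(2R - 6) m + 6 ≤ (R - 4)|A|^2 + (R + 4)|A|`.
(2) `c_m m ≤ K_m^2 + 5 K_m` for every `m`, where `c_m = 2 + 2 / (max(R_m, 6) - 4)`.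
(3) For every `ε > 0` and every `m ≥ 75 / ε^2`: `K_m^2 / m ≥ c_m - ε`; so, if `ℓ_m < c_m - ε`, then
`K_m^2 > m ℓ_m`. -/
theorem result :
    (∀ (m : ℕ) [NeZero m] (R : ℕ) (A : Finset (ZMod m)), Between m R A →
      (2 * (R : ℤ) - 6) * m + 6 ≤ ((R : ℤ) - 4) * (A.card : ℤ) ^ 2 + ((R : ℤ) + 4) * A.card) ∧
    (∀ (m : ℕ) [NeZero m], cst m * m ≤ (kMin m : ℝ) ^ 2 + 5 * kMin m) ∧
    (∀ (ε : ℝ), 0 < ε → ∀ (m : ℕ) [NeZero m], 75 / ε ^ 2 ≤ m →
      cst m - ε ≤ (kMin m : ℝ) ^ 2 / m ∧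
      (ell m < cst m - ε → m * ell m < (kMin m : ℝ) ^ 2)) := by
  refine ⟨fun m _ R A hA => ?_, fun m _ => all_m m, fun ε hε m _ hm =>
    ⟨asymp ε hε m hm, fun h => ?_⟩⟩
  · exact main_ineq A R ((hA 0).1.trans (hA 0).2) hA
  · have hm0 : (0 : ℝ) < m := by
      have : 0 < m := Nat.pos_of_ne_zero (NeZero.ne m)
      exact_mod_cast this
    have h1 := h.trans_le (asymp ε hε m hm)
    rw [lt_div_iff₀ hm0] at h1
    linarith

end Pool.Agent.Results.MP_40163f_nt.LowerBoundKm
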